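import Mathlib

/-!
A Pade type identity for the binomial function, in purely algebraic form.
-/

namespace Pool.Agent.Lib.MP_8ddb3c_nt

open Finset

lemma sum_choose_choose (k e : ℕ) (y δ : ℤ) :
    ∑ i ∈ range (k + e + 1), ((k + e).choose i : ℤ) * y ^ (k + e - i) * δ ^ i * (i.choose k : ℤ)
      = ((k + e).choose k : ℤ) * δ ^ k * (y + δ) ^ e := by
  rw [add_assoc k e 1, Finset.sum_range_add]
  have h0 : ∑ i ∈ range k, ((k + e).choose i : ℤ) * y ^ (k + e - i) * δ ^ i * (i.choose k : ℤ)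
      = 0 := by
    refine Finset.sum_eq_zero fun i hi => ?_
    rw [Nat.choose_eq_zero_of_lt (Finset.mem_range.mp hi)]
    simp
  rw [h0, zero_add, add_comm y δ, add_pow, Finset.mul_sum]
  refine Finset.sum_congr rfl fun j hj => ?_
  have hj' : j ≤ e := Nat.lt_succ_iff.mp (Finset.mem_range.mp hj)
  have h1 : (k + e).choose (k + j) * (k + j).choose k = (k + e).choose k * e.choose j := by
    have := Nat.choose_mul (n := k + e) (k := k + j) (s := k) (by omega)
    simpa using this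
  have h1' : (((k + e).choose (k + j) : ℕ) : ℤ) * ((k + j).choose k : ℕ)
      = ((k + e).choose k : ℕ) * (e.choose j : ℕ) := by exact_mod_cast h1
  have h2 : k + e - (k + j) = e - j := by omega
  rw [h2, pow_add]
  linear_combination (y ^ (e - j) * δ ^ k * δ ^ j) * h1'

/-- The weight `g r i = binom (i - r - 1) r`. -/
noncomputable def g (r i : ℕ) : ℤ := Ring.choose ((i : ℤ) + (-((r : ℤ) + 1))) r

lemma g_expand (r i : ℕ) :
    g r i = ∑ kj ∈ antidiagonal r, (i.choose kj.1 : ℤ) * Ring.choose (-((r : ℤ) + 1)) kj.2 := by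
  unfold g
  rw [Ring.add_choose_eq r (Commute.all _ _)]
  refine Finset.sum_congr rfl fun kj _ => ?_
  rw [Ring.choose_natCast]

lemma g_large (r j : ℕ) : g r (r + 1 + j) = (j.choose r : ℤ) := by
  unfold g
  have : ((r + 1 + j : ℕ) : ℤ) + (-((r : ℤ) + 1)) = (j : ℤ) := by push_cast; ring
  rw [this, Ring.choose_natCast]

lemma g_small (r i : ℕ) (hi : i ≤ r) : |g r i| ≤ 4 ^ r := by
  unfold g
  have h1 : (i : ℤ) + (-((r : ℤ) + 1)) = -(((r + 1 - i : ℕ) : ℤ)) := by
    rw [Nat.cast_sub (by omega)]; push_cast; ring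
  have h2 : (((r + 1 - i : ℕ) : ℤ)) + (r : ℤ) - 1 = ((2 * r - i : ℕ) : ℤ) := by
    rw [Nat.cast_sub (by omega), Nat.cast_sub (by omega)]; push_cast; ring
  rw [h1, Ring.choose_neg, h2, Ring.choose_natCast]
  have h3 : |Int.negOnePow (r : ℤ) • (((2 * r - i).choose r : ℕ) : ℤ)|
      = (((2 * r - i).choose r : ℕ) : ℤ) := by
    rcases Int.units_eq_one_or (Int.negOnePow (r : ℤ)) with h | h <;> simp [h]
  rw [h3]
  have h4 : (2 * r - i).choose r ≤ 4 ^ r := by
    calc (2 * r - i).choose r ≤ 2 ^ (2 * r - i) := Nat.choose_le_two_pow _ _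
      _ ≤ 2 ^ (2 * r) := Nat.pow_le_pow_right (by norm_num) (by omega)
      _ = 4 ^ r := by rw [pow_mul]; norm_num
  exact_mod_cast h4

lemma choose_le_choose_add (r j : ℕ) : (r + j).choose r ≤ (2 * r + 1 + j).choose (2 * r + 1) := by
  have h1 : (r + j).choose r = (r + j).choose j := Nat.choose_symm_add
  have h2 : (2 * r + 1 + j).choose (2 * r + 1) = (2 * r + 1 + j).choose j := Nat.choose_symm_add
  rw [h1, h2]
  exact Nat.choose_le_choose j (by omega)

/-- The Pade identity with the bounds that are needed. -/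
theorem pade (y δ m r : ℕ) :
    ∃ (Q : ℤ) (W : ℕ), (((y + δ : ℕ) : ℤ) ^ (m + r + 1) ∣ (y : ℤ) ^ (m + r + 1) * Q + W) ∧
      y ^ m * δ ^ (2 * r + 1) ≤ W ∧
      W ≤ (m + 2 * r + 1).choose (2 * r + 1) * δ ^ (2 * r + 1) * (y + δ) ^ m ∧
      |Q| ≤ (((r + 1) * 4 ^ r * ((m + 2 * r + 1) * (y + δ)) ^ r : ℕ) : ℤ) := by
  set M := m + 2 * r + 1 with hM
  let f : ℕ → ℤ := fun i => (M.choose i : ℤ) * (y : ℤ) ^ (M - i) * (δ : ℤ) ^ i * g r i
  let Q : ℤ := ∑ i ∈ range (r + 1), (M.choose i : ℤ) * (y : ℤ) ^ (r - i) * (δ : ℤ) ^ i * g r i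
  let W : ℕ := ∑ j ∈ range (m + 1),
    M.choose (2 * r + 1 + j) * y ^ (m - j) * δ ^ (2 * r + 1 + j) * (r + j).choose r
  have hsplit : ∑ i ∈ range (M + 1), f i = (y : ℤ) ^ (m + r + 1) * Q + W := by
    have e1 : M + 1 = (r + 1) + (r + (m + 1)) := by omega
    rw [e1, Finset.sum_range_add f (r + 1), Finset.sum_range_add _ r (m + 1)]
    have hmid : ∑ x ∈ range r, f (r + 1 + x) = 0 := by
      refine Finset.sum_eq_zero fun j hj => ?_
      simp only [f]
      rw [g_large, Nat.choose_eq_zero_of_lt (Finset.mem_range.mp hj)]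
      simp
    rw [hmid, zero_add]
    congr 1
    · simp only [Q, Finset.mul_sum]
      refine Finset.sum_congr rfl fun i hi => ?_
      have hi' : i ≤ r := Nat.lt_succ_iff.mp (Finset.mem_range.mp hi)
      have : M - i = (m + r + 1) + (r - i) := by omega
      simp only [f]
      rw [this, pow_add]
      ring
    · simp only [W]
      push_cast
      refine Finset.sum_congr rfl fun j hj => ?_
      have hj' : j ≤ m := Nat.lt_succ_iff.mp (Finset.mem_range.mp hj)
      simp only [f]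
      rw [g_large]
      have h1 : r + 1 + (r + j) = 2 * r + 1 + j := by omega
      have h2 : M - (2 * r + 1 + j) = m - j := by omega
      rw [h1, h2]
  refine ⟨Q, W, ?_, ?_, ?_, ?_⟩
  · rw [← hsplit]
    have : ∑ i ∈ range (M + 1), f i = ∑ kj ∈ antidiagonal r,
        (∑ i ∈ range (M + 1), (M.choose i : ℤ) * (y : ℤ) ^ (M - i) * (δ : ℤ) ^ i
          * (i.choose kj.1 : ℤ)) * Ring.choose (-((r : ℤ) + 1)) kj.2 := by
      simp only [f, g_expand, Finset.mul_sum, Finset.sum_mul]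
      rw [Finset.sum_comm]
      refine Finset.sum_congr rfl fun kj _ => Finset.sum_congr rfl fun i _ => ?_
      ring
    rw [this]
    refine Finset.dvd_sum fun kj hkj => Dvd.dvd.mul_right ?_ _
    have hk : kj.1 ≤ r := by
      have := Finset.HasAntidiagonal.mem_antidiagonal.mp hkj
      omega
    have e2 : M = kj.1 + (M - kj.1) := by omega
    have := sum_choose_choose kj.1 (M - kj.1) (y : ℤ) (δ : ℤ)
    rw [← e2] at this
    rw [this]
    refine Dvd.dvd.mul_left ?_ _
    push_cast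
    exact pow_dvd_pow _ (by omega)
  · have h0 : (0 : ℕ) ∈ range (m + 1) := by simp
    have := Finset.single_le_sum (f := fun j => M.choose (2 * r + 1 + j) * y ^ (m - j)
      * δ ^ (2 * r + 1 + j) * (r + j).choose r) (fun _ _ => Nat.zero_le _) h0
    refine le_trans ?_ this
    simp only [add_zero, Nat.sub_zero, Nat.choose_self, mul_one]
    have : 1 ≤ M.choose (2 * r + 1) := Nat.choose_pos (by omega)
    calc y ^ m * δ ^ (2 * r + 1) = 1 * y ^ m * δ ^ (2 * r + 1) := by ring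
      _ ≤ _ := by gcongr
  · rw [add_comm y δ, add_pow, Finset.mul_sum]
    refine Finset.sum_le_sum fun j hj => ?_
    have hj' : j ≤ m := Nat.lt_succ_iff.mp (Finset.mem_range.mp hj)
    have h1 : M.choose (2 * r + 1 + j) * (2 * r + 1 + j).choose (2 * r + 1)
        = M.choose (2 * r + 1) * m.choose j := by
      have := Nat.choose_mul (n := M) (k := 2 * r + 1 + j) (s := 2 * r + 1) (by omega)
      have h2 : M - (2 * r + 1) = m := by omega
      have h3 : 2 * r + 1 + j - (2 * r + 1) = j := by omega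
      rw [h2, h3] at this
      exact this
    calc M.choose (2 * r + 1 + j) * y ^ (m - j) * δ ^ (2 * r + 1 + j) * (r + j).choose r
        ≤ M.choose (2 * r + 1 + j) * y ^ (m - j) * δ ^ (2 * r + 1 + j)
          * (2 * r + 1 + j).choose (2 * r + 1) := by
          gcongr
          exact choose_le_choose_add r j
      _ = (M.choose (2 * r + 1 + j) * (2 * r + 1 + j).choose (2 * r + 1))
          * y ^ (m - j) * δ ^ (2 * r + 1 + j) := by ring
      _ = _ := by rw [h1, pow_add]; simp only [Nat.cast_id]; ring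
  · refine le_trans (Finset.abs_sum_le_sum_abs _ _) ?_
    have hb : ∀ i ∈ range (r + 1),
        |(M.choose i : ℤ) * (y : ℤ) ^ (r - i) * (δ : ℤ) ^ i * g r i|
          ≤ ((4 ^ r * (M * (y + δ)) ^ r : ℕ) : ℤ) := by
      intro i hi
      have hi' : i ≤ r := Nat.lt_succ_iff.mp (Finset.mem_range.mp hi)
      have h1 : M.choose i * y ^ (r - i) * δ ^ i ≤ (M * (y + δ)) ^ r := by
        have a1 : M.choose i ≤ M ^ r :=
          le_trans (Nat.choose_le_pow M i) (Nat.pow_le_pow_right (by omega) hi')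
        have a2 : y ^ (r - i) * δ ^ i ≤ (y + δ) ^ r := by
          calc y ^ (r - i) * δ ^ i ≤ (y + δ) ^ (r - i) * (y + δ) ^ i := by
                gcongr <;> omega
            _ = (y + δ) ^ r := by rw [← pow_add]; congr 1; omega
        rw [mul_pow, mul_assoc]
        exact Nat.mul_le_mul a1 a2
      rw [abs_mul]
      have h2 : |(M.choose i : ℤ) * (y : ℤ) ^ (r - i) * (δ : ℤ) ^ i|
          = ((M.choose i * y ^ (r - i) * δ ^ i : ℕ) : ℤ) := by
        rw [abs_of_nonneg (by positivity)]; push_cast; ring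
      rw [h2]
      have h3 : ((M.choose i * y ^ (r - i) * δ ^ i : ℕ) : ℤ) ≤ (((M * (y + δ)) ^ r : ℕ) : ℤ) := by
        exact_mod_cast h1
      calc _ ≤ (((M * (y + δ)) ^ r : ℕ) : ℤ) * 4 ^ r :=
            mul_le_mul h3 (g_small r i hi') (abs_nonneg _) (by positivity)
        _ = _ := by push_cast; ring
    refine le_trans (Finset.sum_le_card_nsmul _ _ _ hb) ?_
    simp only [card_range, nsmul_eq_mul]
    push_cast
    apply le_of_eq
    ring

/-- Two multiples of equal powers cannot be close, under explicit size conditions. -/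
theorem not_close (y δ m r c c' D : ℕ) (hδ : 1 ≤ δ)
    (hd : |((c * (y + δ) ^ (m + r + 1) : ℕ) : ℤ) - ((c' * y ^ (m + r + 1) : ℕ) : ℤ)| ≤ D)
    (hL : D * ((r + 1) * 4 ^ r * ((m + 2 * r + 1) * (y + δ)) ^ r) < c' * y ^ m)
    (hU : 2 * c' * ((m + 2 * r + 1).choose (2 * r + 1) * δ ^ (2 * r + 1)) ≤ (y + δ) ^ (r + 1))
    (hU2 : 2 * (D * ((r + 1) * 4 ^ r * ((m + 2 * r + 1) * (y + δ)) ^ r))
      < (y + δ) ^ (m + r + 1)) : False := by
  obtain ⟨Q, W, hdvd, hW1, hW2, hQ⟩ := pade y δ m r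
  set B := (r + 1) * 4 ^ r * ((m + 2 * r + 1) * (y + δ)) ^ r with hB
  set d : ℤ := ((c * (y + δ) ^ (m + r + 1) : ℕ) : ℤ) - ((c' * y ^ (m + r + 1) : ℕ) : ℤ) with hdd
  have hdQ : |d * Q| ≤ ((D * B : ℕ) : ℤ) := by
    rw [abs_mul]; push_cast
    exact mul_le_mul hd (by exact_mod_cast hQ) (abs_nonneg _) (by positivity)
  have hdiv : ((y + δ : ℕ) : ℤ) ^ (m + r + 1) ∣ (c' : ℤ) * W - d * Q := by
    have : (c' : ℤ) * W - d * Q = c' * ((y : ℤ) ^ (m + r + 1) * Q + W)
        - ((y + δ : ℕ) : ℤ) ^ (m + r + 1) * (c * Q) := by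
      rw [hdd]; push_cast; ring
    rw [this]
    exact dvd_sub (Dvd.dvd.mul_left hdvd _) (Dvd.intro _ rfl)
  have h1 : D * B < c' * W := by
    refine lt_of_lt_of_le hL (Nat.mul_le_mul_left _ (le_trans ?_ hW1))
    exact Nat.le_mul_of_pos_right _ (by positivity)
  have h2 : 2 * (c' * W) ≤ (y + δ) ^ (m + r + 1) := by
    calc 2 * (c' * W) ≤ 2 * (c' * ((m + 2 * r + 1).choose (2 * r + 1) * δ ^ (2 * r + 1)
          * (y + δ) ^ m)) := by gcongr
      _ = (2 * c' * ((m + 2 * r + 1).choose (2 * r + 1) * δ ^ (2 * r + 1))) * (y + δ) ^ m := by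
          ring
      _ ≤ (y + δ) ^ (r + 1) * (y + δ) ^ m := by gcongr
      _ = _ := by rw [← pow_add]; congr 1; omega
  have h1' : ((D * B : ℕ) : ℤ) < (c' : ℤ) * W := by exact_mod_cast h1
  have h2' : 2 * ((c' : ℤ) * W) ≤ ((y + δ : ℕ) : ℤ) ^ (m + r + 1) := by exact_mod_cast h2
  have h3' : 2 * ((D * B : ℕ) : ℤ) < ((y + δ : ℕ) : ℤ) ^ (m + r + 1) := by exact_mod_cast hU2
  have hab := abs_le.mp hdQ
  have hpos : 0 < (c' : ℤ) * W - d * Q := by linarith [hab.2]
  have hle := Int.le_of_dvd hpos hdiv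
  linarith [hab.1]

end Pool.Agent.Lib.MP_8ddb3c_nt
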