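import Mathlib
import Pool.Agent.Lib.MP_8ddb3c_nt.Pade

/-!
The size conditions of `not_close` for the parameters `t = 2 ^ s`, `Y = t ^ 14`, `r = t ^ 9`.
-/

namespace Pool.Agent.Lib.MP_8ddb3c_nt

lemma pow_self_le (j : ℕ) : j ^ j ≤ 3 ^ j * j.factorial := by
  have h1 := Real.pow_div_factorial_le_exp (j : ℝ) (by positivity) j
  have h2 : Real.exp (j : ℝ) ≤ 3 ^ j := by
    have : Real.exp (j : ℝ) = Real.exp 1 ^ j := by rw [← Real.exp_nat_mul]; simp
    rw [this]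
    have h3 : Real.exp 1 ≤ 3 := le_of_lt (lt_trans Real.exp_one_lt_d9 (by norm_num))
    exact pow_le_pow_left₀ (Real.exp_pos 1).le h3 j
  have h4 : (0 : ℝ) < j.factorial := by exact_mod_cast j.factorial_pos
  rw [div_le_iff₀ h4] at h1
  have : ((j ^ j : ℕ) : ℝ) ≤ ((3 ^ j * j.factorial : ℕ) : ℝ) := by
    push_cast
    calc (j : ℝ) ^ j ≤ Real.exp j * j.factorial := h1
      _ ≤ 3 ^ j * j.factorial := by gcongr
  exact_mod_cast this

lemma exponent_gap (y δ a u : ℕ) (hx : 0 < y + δ) (h : (y + δ) ^ a ≤ 2 ^ u * y ^ a) :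
    a * δ ≤ u * (y + δ) := by
  have hx' : (0 : ℝ) < (y : ℝ) + δ := by exact_mod_cast hx
  set x : ℝ := (y : ℝ) + δ with hxdef
  have h1 : (y : ℝ) ≤ x * Real.exp (-(δ / x)) := by
    have := Real.add_one_le_exp (-((δ : ℝ) / x))
    have h2 : (y : ℝ) = x * (-(δ / x) + 1) := by
      field_simp
      rw [hxdef]; ring
    rw [h2]
    exact mul_le_mul_of_nonneg_left this hx'.le
  have h3 : (y : ℝ) ^ a ≤ x ^ a * Real.exp (-(a * δ / x)) := by
    calc (y : ℝ) ^ a ≤ (x * Real.exp (-(δ / x))) ^ a :=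
          pow_le_pow_left₀ (by positivity) h1 a
      _ = x ^ a * Real.exp (-(a * δ / x)) := by
          rw [mul_pow, ← Real.exp_nat_mul]; congr 2; ring
  have h4 : x ^ a ≤ 2 ^ u * (y : ℝ) ^ a := by rw [hxdef]; exact_mod_cast h
  have h5 : (2 : ℝ) ^ u ≤ Real.exp u := by
    have : Real.exp (u : ℝ) = Real.exp 1 ^ u := by rw [← Real.exp_nat_mul]; simp
    rw [this]
    have h3 : (2 : ℝ) ≤ Real.exp 1 := by linarith [Real.add_one_le_exp (1 : ℝ)]
    exact pow_le_pow_left₀ (by norm_num) h3 u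
  have h6 : x ^ a * 1 ≤ x ^ a * Real.exp (u - a * δ / x) := by
    calc x ^ a * 1 = x ^ a := mul_one _
      _ ≤ 2 ^ u * (y : ℝ) ^ a := h4
      _ ≤ Real.exp u * (x ^ a * Real.exp (-(a * δ / x))) := by gcongr
      _ = x ^ a * Real.exp (u - a * δ / x) := by
          rw [sub_eq_add_neg, Real.exp_add]; ring
  have h7 : 1 ≤ Real.exp (u - a * δ / x) := le_of_mul_le_mul_left h6 (by positivity)
  have h8 : 0 ≤ (u : ℝ) - a * δ / x := Real.one_le_exp_iff.mp h7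
  have h9 : (a : ℝ) * δ ≤ u * x := by
    have : (a : ℝ) * δ / x ≤ u := by linarith
    rwa [div_le_iff₀ hx'] at this
  rw [hxdef] at h9
  exact_mod_cast h9

/-- No two numbers `c x ^ a`, `c' y ^ a` in `[n, n + Y)` with small cofactors and small
bases `y < x`. -/
theorem no_pair (s n x y a c c' : ℕ) (hs : 1 ≤ s) (hst : 100 * s ≤ 2 ^ s)
    (hn1 : 2 ^ ((2 ^ s) ^ 10) ≤ n) (hn2 : n < 2 ^ (1024 * (2 ^ s) ^ 10))
    (hy : 2 ≤ y) (hyx : y < x) (hxY : x ≤ (2 ^ s) ^ 14)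
    (hc : c ≤ 2 ^ (2 ^ s)) (hc' : c' ≤ 2 ^ (2 ^ s))
    (h1 : n ≤ c * x ^ a) (h2 : c * x ^ a < n + (2 ^ s) ^ 14)
    (h3 : n ≤ c' * y ^ a) (h4 : c' * y ^ a < n + (2 ^ s) ^ 14) : False := by
  obtain ⟨δ, rfl⟩ : ∃ δ, x = y + δ := ⟨x - y, by omega⟩
  have hδ : 1 ≤ δ := by omega
  obtain ⟨t, ht⟩ : ∃ t, t = 2 ^ s := ⟨_, rfl⟩
  rw [← ht] at hst hn1 hn2 hxY hc hc' h2 h4
  have ht100 : 100 ≤ t := by omega
  have hY : t ^ 14 = 2 ^ (14 * s) := by rw [ht, ← pow_mul, mul_comm]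
  obtain ⟨r, hr⟩ : ∃ r, r = t ^ 9 := ⟨_, rfl⟩
  have htr : t ≤ r := by
    rw [hr]; calc t = t ^ 1 := (pow_one t).symm
      _ ≤ t ^ 9 := Nat.pow_le_pow_right (by omega) (by norm_num)
  have ht10 : t ^ 10 = t * r := by rw [hr]; ring
  have hbig : ∀ e : ℕ, e < 100 * s * r → 2 ^ e < n := by
    intro e he
    refine lt_of_lt_of_le ?_ hn1
    refine Nat.pow_lt_pow_right (by norm_num) ?_
    rw [ht10]
    exact lt_of_lt_of_le he (Nat.mul_le_mul_right r hst)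
  have hsr : s ≤ s * r := Nat.le_mul_of_pos_right _ (by omega)
  have hrs : r ≤ s * r := Nat.le_mul_of_pos_left _ (by omega)
  have hYn : t ^ 14 ≤ n := by
    rw [hY]; exact (hbig _ (by nlinarith)).le
  have hc1 : 1 ≤ c := by
    rcases Nat.eq_zero_or_pos c with h | h
    · subst h; simp at h1; have := hbig 0 (by nlinarith); omega
    · exact h
  -- upper bound for the exponent
  have ha2 : a ≤ 1024 * t ^ 10 := by
    have e1 : 2 ^ a ≤ (y + δ) ^ a := Nat.pow_le_pow_left (by omega) a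
    have e2 : (y + δ) ^ a ≤ c * (y + δ) ^ a := Nat.le_mul_of_pos_left _ hc1
    have e3 : 2 ^ a < 2 ^ (1024 * t ^ 10 + 1) := by rw [pow_succ]; omega
    have := (Nat.pow_lt_pow_iff_right (by norm_num : 1 < 2)).mp e3
    omega
  -- lower bound for the exponent
  have hxp : y + δ ≤ 2 ^ (14 * s) := hY ▸ hxY
  have ha1 : r + 1 ≤ a := by
    by_contra hlt
    have e0 : a ≤ r := by omega
    have e1 : (y + δ) ^ a ≤ 2 ^ (14 * s * r) := by
      calc (y + δ) ^ a ≤ (y + δ) ^ r := Nat.pow_le_pow_right (by omega) e0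
        _ ≤ (2 ^ (14 * s)) ^ r := Nat.pow_le_pow_left hxp r
        _ = _ := by rw [← pow_mul]
    have e2 : c * (y + δ) ^ a ≤ 2 ^ (t + 14 * s * r) := by
      rw [pow_add]; exact Nat.mul_le_mul hc e1
    have := hbig (t + 14 * s * r) (by nlinarith)
    omega
  obtain ⟨m, rfl⟩ : ∃ m, a = m + r + 1 := ⟨a - (r + 1), by omega⟩
  -- the bound for the error term
  have hM : m + 2 * r + 1 ≤ 2 ^ (11 + 10 * s) := by
    have : 2 ^ (11 + 10 * s) = 2048 * t ^ 10 := by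
      rw [ht, ← pow_mul, pow_add, mul_comm s 10]; norm_num
    rw [this]; omega
  have hB : (r + 1) * 4 ^ r * ((m + 2 * r + 1) * (y + δ)) ^ r ≤ 2 ^ ((14 + 24 * s) * r) := by
    have e1 : r + 1 ≤ 2 ^ r := Nat.lt_two_pow_self
    have e2 : (m + 2 * r + 1) * (y + δ) ≤ 2 ^ (11 + 10 * s) * 2 ^ (14 * s) :=
      Nat.mul_le_mul hM hxp
    calc (r + 1) * 4 ^ r * ((m + 2 * r + 1) * (y + δ)) ^ r
        ≤ 2 ^ r * 4 ^ r * (2 ^ (11 + 10 * s) * 2 ^ (14 * s)) ^ r := by gcongr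
      _ = (2 * 4 * (2 ^ (11 + 10 * s) * 2 ^ (14 * s))) ^ r := by rw [← mul_pow, ← mul_pow]
      _ = (2 ^ (14 + 24 * s)) ^ r := by congr 1; ring
      _ = _ := by rw [← pow_mul]
  obtain ⟨B, hBdef⟩ : ∃ B, B = (r + 1) * 4 ^ r * ((m + 2 * r + 1) * (y + δ)) ^ r := ⟨_, rfl⟩
  rw [← hBdef] at hB
  have hDB : t ^ 14 * B ≤ 2 ^ (14 * s + (14 + 24 * s) * r) := by
    rw [pow_add, hY]; exact Nat.mul_le_mul_left _ hB
  refine not_close y δ m r c c' (t ^ 14) hδ ?_ ?_ ?_ ?_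
  · rw [abs_le]
    constructor
    · have : ((c' * y ^ (m + r + 1) : ℕ) : ℤ) ≤ ((c * (y + δ) ^ (m + r + 1) : ℕ) : ℤ)
          + ((t ^ 14 : ℕ) : ℤ) := by exact_mod_cast (by omega)
      linarith
    · have : ((c * (y + δ) ^ (m + r + 1) : ℕ) : ℤ) ≤ ((c' * y ^ (m + r + 1) : ℕ) : ℤ)
          + ((t ^ 14 : ℕ) : ℤ) := by exact_mod_cast (by omega)
      linarith
  · rw [← hBdef]
    have e1 : y ^ (r + 1) ≤ 2 ^ (14 * s * (r + 1)) := by
      rw [pow_mul]; exact Nat.pow_le_pow_left (by omega) _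
    have e2 : t ^ 14 * B * y ^ (r + 1)
        ≤ 2 ^ (14 * s + (14 + 24 * s) * r + 14 * s * (r + 1)) := by
      rw [pow_add 2 _ (14 * s * (r + 1))]; exact Nat.mul_le_mul hDB e1
    have e3 := hbig (14 * s + (14 + 24 * s) * r + 14 * s * (r + 1)) (by nlinarith)
    have e4 : c' * y ^ (m + r + 1) = c' * y ^ m * y ^ (r + 1) := by ring
    have e5 : t ^ 14 * B * y ^ (r + 1) < c' * y ^ m * y ^ (r + 1) := by omega
    exact lt_of_mul_lt_mul_right e5 (Nat.zero_le _)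
  · obtain ⟨j, hj⟩ : ∃ j, j = 2 * r + 1 := ⟨_, rfl⟩
    rw [← hj]
    have g1 : (y + δ) ^ (m + r + 1) ≤ 2 ^ (t + 1) * y ^ (m + r + 1) := by
      have e2 : (y + δ) ^ (m + r + 1) ≤ c * (y + δ) ^ (m + r + 1) :=
        Nat.le_mul_of_pos_left _ hc1
      have e3 : c' * y ^ (m + r + 1) ≤ 2 ^ t * y ^ (m + r + 1) := Nat.mul_le_mul_right _ hc'
      have e4 : 2 ^ (t + 1) * y ^ (m + r + 1) = 2 * (2 ^ t * y ^ (m + r + 1)) := by ring
      omega
    have g2 := exponent_gap y δ (m + r + 1) (t + 1) (by omega) g1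
    have g3 : (m + 2 * r + 1) * δ ≤ 4 * t * (y + δ) := by
      calc (m + 2 * r + 1) * δ ≤ (2 * (m + r + 1)) * δ := Nat.mul_le_mul_right _ (by omega)
        _ = 2 * ((m + r + 1) * δ) := by ring
        _ ≤ 2 * ((t + 1) * (y + δ)) := Nat.mul_le_mul_left _ g2
        _ = (2 * (t + 1)) * (y + δ) := by ring
        _ ≤ 4 * t * (y + δ) := Nat.mul_le_mul_right _ (by omega)
    have g4 : j.factorial * (m + 2 * r + 1).choose j ≤ (m + 2 * r + 1) ^ j := by
      rw [← Nat.descFactorial_eq_factorial_mul_choose]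
      exact Nat.descFactorial_le_pow _ _
    have g5 := pow_self_le j
    have g6 : (y + δ) ^ r ≤ (t ^ 7) ^ j := by
      calc (y + δ) ^ r ≤ (t ^ 14) ^ r := Nat.pow_le_pow_left hxY r
        _ = t ^ (7 * (2 * r)) := by rw [← pow_mul]; congr 1; ring
        _ ≤ t ^ (7 * j) := Nat.pow_le_pow_right (by omega) (by omega)
        _ = _ := pow_mul t 7 j
    have g7 : 2 * c' ≤ 2 ^ j := by
      calc 2 * c' ≤ 2 * 2 ^ t := Nat.mul_le_mul_left _ hc'
        _ = 2 ^ (t + 1) := by ring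
        _ ≤ 2 ^ j := Nat.pow_le_pow_right (by norm_num) (by omega)
    have g8 : 2 * (12 * t) * t ^ 7 ≤ j := by
      have : 2 * (12 * t) * t ^ 7 = 24 * t ^ 8 := by ring
      have e : r = t * t ^ 8 := by rw [hr]; ring
      rw [this]
      have : 24 * t ^ 8 ≤ t * t ^ 8 := Nat.mul_le_mul_right _ (by omega)
      omega
    have g9 : 2 * c' * (12 * t) ^ j * (y + δ) ^ r ≤ j ^ j := by
      calc 2 * c' * (12 * t) ^ j * (y + δ) ^ r ≤ 2 ^ j * (12 * t) ^ j * (t ^ 7) ^ j := by gcongr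
        _ = (2 * (12 * t) * t ^ 7) ^ j := by rw [← mul_pow, ← mul_pow]
        _ ≤ j ^ j := Nat.pow_le_pow_left g8 j
    have g10 : 2 * c' * (4 * t) ^ j * (y + δ) ^ r ≤ j.factorial := by
      have e : 3 ^ j * (2 * c' * (4 * t) ^ j * (y + δ) ^ r)
          = 2 * c' * (12 * t) ^ j * (y + δ) ^ r := by
        have : (12 * t) ^ j = 3 ^ j * (4 * t) ^ j := by rw [← mul_pow]; congr 1; ring
        rw [this]; ring
      have : 3 ^ j * (2 * c' * (4 * t) ^ j * (y + δ) ^ r) ≤ 3 ^ j * j.factorial := by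
        rw [e]; exact le_trans g9 g5
      exact Nat.le_of_mul_le_mul_left this (by positivity)
    have g11 : j.factorial * (2 * c' * ((m + 2 * r + 1).choose j * δ ^ j))
        ≤ j.factorial * (y + δ) ^ (r + 1) := by
      calc j.factorial * (2 * c' * ((m + 2 * r + 1).choose j * δ ^ j))
          = 2 * c' * ((j.factorial * (m + 2 * r + 1).choose j) * δ ^ j) := by ring
        _ ≤ 2 * c' * ((m + 2 * r + 1) ^ j * δ ^ j) := by gcongr
        _ = 2 * c' * ((m + 2 * r + 1) * δ) ^ j := by rw [← mul_pow]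
        _ ≤ 2 * c' * (4 * t * (y + δ)) ^ j := by gcongr
        _ = (2 * c' * (4 * t) ^ j * (y + δ) ^ r) * (y + δ) ^ (r + 1) := by
            rw [mul_pow (4 * t), hj]; ring
        _ ≤ j.factorial * (y + δ) ^ (r + 1) := by gcongr
    exact Nat.le_of_mul_le_mul_left g11 j.factorial_pos
  · rw [← hBdef]
    have e2 : c * (2 * (t ^ 14 * B)) ≤ 2 ^ (t + (1 + (14 * s + (14 + 24 * s) * r))) := by
      rw [pow_add, pow_add 2 1, pow_one]
      exact Nat.mul_le_mul hc (Nat.mul_le_mul_left _ hDB)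
    have e3 := hbig (t + (1 + (14 * s + (14 + 24 * s) * r))) (by nlinarith)
    have e5 : c * (2 * (t ^ 14 * B)) < c * (y + δ) ^ (m + r + 1) := by omega
    exact lt_of_mul_lt_mul_left e5 (Nat.zero_le _)

end Pool.Agent.Lib.MP_8ddb3c_nt
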