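import Mathlib
import Pool.Agent.Lib.MP_8ddb3c_nt.Numeric

/-!
Counting lemmas on the prime power components of the integers `n, n + 1, ..., n + Y - 1`.
-/

namespace Pool.Agent.Lib.MP_8ddb3c_nt

open Finset

lemma card_multiples_le (n Y d : ℕ) :
    ((range Y).filter (fun k => d ∣ n + k)).card ≤ Y / d + 1 := by
  have : ((range Y).filter (fun k => d ∣ n + k)).card ≤ (range (Y / d + 1)).card := by
    refine Finset.card_le_card_of_injOn (fun k => k / d) ?_ ?_
    · intro k hk
      have hk' : k < Y := by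
        have := (Finset.mem_filter.mp hk).1
        exact Finset.mem_range.mp this
      have : k / d ≤ Y / d := Nat.div_le_div_right hk'.le
      simp only [coe_range, Set.mem_Iio]
      omega
    · intro k hk k' hk' h
      have h1 : d ∣ n + k := (Finset.mem_filter.mp hk).2
      have h2 : d ∣ n + k' := (Finset.mem_filter.mp hk').2
      have h3 : n + k ≡ n + k' [MOD d] :=
        ((Nat.modEq_zero_iff_dvd).mpr h1).trans ((Nat.modEq_zero_iff_dvd).mpr h2).symm
      have h4 : k % d = k' % d := Nat.ModEq.add_left_cancel' n h3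
      have h5 : k / d = k' / d := h
      rw [← Nat.div_add_mod k d, ← Nat.div_add_mod k' d, h4, h5]
  simpa using this

lemma factorization_gcd_le (m Y p : ℕ) (hm : m ≠ 0) (hp : p.Prime) :
    (Nat.gcd m (Nat.lcmUpto Y)).factorization p
      ≤ ((Ico 1 (p.log Y + 1)).filter (fun i => p ^ i ∣ m)).card := by
  have hg : Nat.gcd m (Nat.lcmUpto Y) ≠ 0 := Nat.gcd_ne_zero_left hm
  set e := (Nat.gcd m (Nat.lcmUpto Y)).factorization p with he
  have h1 : p ^ e ∣ Nat.gcd m (Nat.lcmUpto Y) := Nat.ordProj_dvd _ _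
  have h2 : e ≤ p.log Y := by
    rw [← Nat.factorization_lcmUpto Y hp, ← hp.pow_dvd_iff_le_factorization (Nat.lcmUpto_ne_zero Y)]
    exact h1.trans (Nat.gcd_dvd_right _ _)
  have h3 : Ico 1 (e + 1) ⊆ (Ico 1 (p.log Y + 1)).filter (fun i => p ^ i ∣ m) := by
    intro i hi
    rw [Finset.mem_Ico] at hi
    rw [Finset.mem_filter, Finset.mem_Ico]
    refine ⟨⟨hi.1, by omega⟩, ?_⟩
    exact (pow_dvd_pow p (by omega)).trans (h1.trans (Nat.gcd_dvd_left _ _))
  have := Finset.card_le_card h3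
  simpa using this

lemma prod_gcd_dvd (n Y : ℕ) (hn : n ≠ 0) (hY : Y ≠ 0) :
    ∏ k ∈ range Y, Nat.gcd (n + k) (Nat.lcmUpto Y) ∣ Y.factorial ^ 2 := by
  have hne : ∀ k ∈ range Y, Nat.gcd (n + k) (Nat.lcmUpto Y) ≠ 0 :=
    fun k _ => Nat.gcd_ne_zero_left (by omega)
  rw [← Nat.factorization_prime_le_iff_dvd (Finset.prod_ne_zero_iff.mpr hne)
    (pow_ne_zero 2 Y.factorial_ne_zero)]
  intro p hp
  rw [Nat.factorization_prod_apply hne, Nat.factorization_pow]
  simp only [Finsupp.coe_smul, Pi.smul_apply, smul_eq_mul]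
  rw [Nat.factorization_factorial hp (Nat.lt_succ_self (p.log Y))]
  calc ∑ k ∈ range Y, (Nat.gcd (n + k) (Nat.lcmUpto Y)).factorization p
      ≤ ∑ k ∈ range Y, ((Ico 1 (p.log Y + 1)).filter (fun i => p ^ i ∣ n + k)).card :=
        Finset.sum_le_sum fun k _ => factorization_gcd_le _ _ _ (by omega) hp
    _ = ∑ i ∈ Ico 1 (p.log Y + 1), ((range Y).filter (fun k => p ^ i ∣ n + k)).card := by
        simp only [Finset.card_filter]
        exact Finset.sum_comm
    _ ≤ ∑ i ∈ Ico 1 (p.log Y + 1), 2 * (Y / p ^ i) := by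
        refine Finset.sum_le_sum fun i hi => ?_
        rw [Finset.mem_Ico] at hi
        have h1 := card_multiples_le n Y (p ^ i)
        have h2 : p ^ i ≤ Y := Nat.pow_le_of_le_log hY (by omega)
        have h3 : 1 ≤ Y / p ^ i := Nat.div_pos h2 (pow_pos hp.pos i)
        omega
    _ = _ := by rw [Finset.mul_sum]

lemma prod_gcd_le (n Y : ℕ) (hn : n ≠ 0) (hY : Y ≠ 0) :
    ∏ k ∈ range Y, Nat.gcd (n + k) (Nat.lcmUpto Y) ≤ Y ^ (2 * Y) := by
  refine le_trans (Nat.le_of_dvd (by positivity) (prod_gcd_dvd n Y hn hY)) ?_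
  rw [mul_comm, pow_mul]
  exact Nat.pow_le_pow_left (Nat.factorial_le_pow Y) 2

lemma two_pow_card_primeFactors_le (m : ℕ) (hm : m ≠ 0) : 2 ^ m.primeFactors.card ≤ m := by
  refine le_trans ?_ (Nat.le_of_dvd (Nat.pos_of_ne_zero hm) (Nat.prod_primeFactors_dvd m))
  exact Finset.pow_card_le_prod _ _ _ fun p hp => (Nat.prime_of_mem_primeFactors hp).two_le

lemma two_pow_le_primes (Y : ℕ) (hY : Y ≠ 0) :
    2 ^ Y ≤ (Y + 1) * Y ^ (Nat.primesLE Y).card := by
  refine le_trans (Chebyshev.two_pow_le_mul_lcmUpto Y) (Nat.mul_le_mul_left _ ?_)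
  rw [Nat.lcmUpto_eq_prod_pow_log]
  exact Finset.prod_le_pow_card _ _ _ fun p _ => Nat.pow_log_le_self p hY

/-- The primes whose exact power in `m` exceeds `Y`. -/
def big (Y m : ℕ) : Finset ℕ := m.primeFactors.filter (fun p => Y < p ^ m.factorization p)

lemma big_disjoint (n Y k k' : ℕ) (hk : k < Y) (hk' : k' < Y) (hne : k ≠ k') :
    Disjoint (big Y (n + k)) (big Y (n + k')) := by
  rw [Finset.disjoint_left]
  intro p h1 h2
  have a1 := (Finset.mem_filter.mp h1).2
  have a2 := (Finset.mem_filter.mp h2).2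
  set e := min ((n + k).factorization p) ((n + k').factorization p) with he
  have b1 : p ^ e ∣ n + k := (pow_dvd_pow p (min_le_left _ _)).trans (Nat.ordProj_dvd _ _)
  have b2 : p ^ e ∣ n + k' := (pow_dvd_pow p (min_le_right _ _)).trans (Nat.ordProj_dvd _ _)
  have b3 : Y < p ^ e := by
    rcases min_choice ((n + k).factorization p) ((n + k').factorization p) with h | h <;>
      rw [he, h] <;> assumption
  have h3 : n + k ≡ n + k' [MOD p ^ e] :=
    ((Nat.modEq_zero_iff_dvd).mpr b1).trans ((Nat.modEq_zero_iff_dvd).mpr b2).symm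
  have h4 : k % p ^ e = k' % p ^ e := Nat.ModEq.add_left_cancel' n h3
  rw [Nat.mod_eq_of_lt (by omega), Nat.mod_eq_of_lt (by omega)] at h4
  exact hne h4

lemma dvd_lcmUpto_of (Y c : ℕ) (hc : c ≠ 0)
    (h : ∀ p, p.Prime → p ∣ c → p ^ c.factorization p ≤ Y) : c ∣ Nat.lcmUpto Y := by
  rw [← Nat.factorization_prime_le_iff_dvd hc (Nat.lcmUpto_ne_zero Y)]
  intro p hp
  rw [Nat.factorization_lcmUpto Y hp]
  by_cases hpc : p ∣ c
  · exact Nat.le_log_of_pow_le hp.one_lt (h p hp hpc)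
  · rw [Nat.factorization_eq_zero_of_not_dvd hpc]; exact Nat.zero_le _

/-- A number with at most one big prime power component and small `gcd` with `lcm (1..Y)` is a
small multiple of a prime power. -/
lemma exists_form (Y m T : ℕ) (hm : T < m) (h1 : (big Y m).card ≤ 1)
    (h2 : Nat.gcd m (Nat.lcmUpto Y) ≤ T) :
    ∃ x c, x ∈ big Y m ∧ c ≤ T ∧ m = c * x ^ m.factorization x := by
  have hm0 : m ≠ 0 := by omega
  have hgpos : 0 < Nat.gcd m (Nat.lcmUpto Y) := Nat.gcd_pos_of_pos_left _ (by omega)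
  rcases (big Y m).eq_empty_or_nonempty with he | ⟨x, hx⟩
  · exfalso
    have : m ∣ Nat.lcmUpto Y := by
      refine dvd_lcmUpto_of Y m hm0 fun p hp hpm => ?_
      by_contra hlt
      have : p ∈ big Y m :=
        Finset.mem_filter.mpr ⟨Nat.mem_primeFactors.mpr ⟨hp, hpm, hm0⟩, by omega⟩
      rw [he] at this
      simp at this
    rw [Nat.gcd_eq_left this] at h2
    omega
  · have hxp : x.Prime := Nat.prime_of_mem_primeFactors (Finset.mem_filter.mp hx).1
    refine ⟨x, m / x ^ m.factorization x, hx, ?_, ?_⟩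
    · have hc0 : m / x ^ m.factorization x ≠ 0 := (Nat.ordCompl_pos x hm0).ne'
      have d1 : m / x ^ m.factorization x ∣ m := Nat.ordCompl_dvd m x
      have d2 : m / x ^ m.factorization x ∣ Nat.lcmUpto Y := by
        refine dvd_lcmUpto_of Y _ hc0 fun p hp hpc => ?_
        have hpx : p ≠ x := by
          rintro rfl
          exact Nat.not_dvd_ordCompl hp hm0 hpc
        rw [Nat.factorization_ordCompl, Finsupp.erase_ne hpx]
        by_contra hlt
        have : p ∈ big Y m :=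
          Finset.mem_filter.mpr ⟨Nat.mem_primeFactors.mpr ⟨hp, hpc.trans d1, hm0⟩, by omega⟩
        exact hpx (Finset.card_le_one.mp h1 p this x hx)
      exact le_trans (Nat.le_of_dvd hgpos (Nat.dvd_gcd d1 d2)) h2
    · rw [mul_comm]
      exact (Nat.ordProj_mul_ordCompl_eq_self m x).symm

/-- The offsets `k < Y` for which `n + k` has no prime factor above `Y`. -/
def smoothOffsets (n Y : ℕ) : Finset ℕ :=
  (range Y).filter (fun k => ∀ q ∈ (n + k).primeFactors, q ≤ Y)

lemma card_smoothOffsets (l n Y : ℕ) (hn : n ≠ 0)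
    (H : ∀ k, l ≤ k → ∀ p q, p.Prime → q.Prime → p ∣ n + k → q ∣ n + k → k < p → k < q → p = q) :
    (Nat.primesLE Y).card
      ≤ (smoothOffsets n Y).card + (∏ i ∈ range l, (n + i)).primeFactors.card := by
  set N := ∏ i ∈ range l, (n + i) with hN
  have hN0 : N ≠ 0 := Finset.prod_ne_zero_iff.mpr fun i _ => by omega
  have hk : ∀ p, p.Prime → ∃ k, k < p ∧ p ∣ n + k := by
    intro p hp
    refine ⟨(p - n % p) % p, Nat.mod_lt _ hp.pos, ?_⟩
    have h1 : n % p < p := Nat.mod_lt _ hp.pos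
    rw [Nat.dvd_iff_mod_eq_zero, Nat.add_mod, Nat.mod_mod]
    rw [Nat.add_mod_mod]
    have : n % p + (p - n % p) = p := by omega
    rw [this, Nat.mod_self]
  choose! f hf1 hf2 using hk
  have hl : ∀ p, p.Prime → ¬ p ∣ N → l ≤ f p := by
    intro p hp hpN
    by_contra hlt
    exact hpN ((hf2 p hp).trans (Finset.dvd_prod_of_mem _ (Finset.mem_range.mpr (by omega))))
  have h1 : (Nat.primesLE Y \ N.primeFactors).card ≤ (smoothOffsets n Y).card := by
    refine Finset.card_le_card_of_injOn f ?_ ?_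
    · intro p hp
      have hp' := Finset.mem_sdiff.mp hp
      obtain ⟨hpY, hpp⟩ := Nat.mem_primesLE.mp hp'.1
      have hpN : ¬ p ∣ N := fun h => hp'.2 (Nat.mem_primeFactors.mpr ⟨hpp, h, hN0⟩)
      have := hf1 p hpp
      refine Finset.mem_filter.mpr ⟨Finset.mem_range.mpr (by omega), fun q hq => ?_⟩
      obtain ⟨hq1, hq2, _⟩ := Nat.mem_primeFactors.mp hq
      by_contra hlt
      have := H (f p) (hl p hpp hpN) p q hpp hq1 (hf2 p hpp) hq2 this (by omega)
      omega
    · intro p hp q hq hpq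
      have hp' := Finset.mem_sdiff.mp hp
      have hq' := Finset.mem_sdiff.mp hq
      obtain ⟨_, hpp⟩ := Nat.mem_primesLE.mp hp'.1
      obtain ⟨_, hqp⟩ := Nat.mem_primesLE.mp hq'.1
      have hpN : ¬ p ∣ N := fun h => hp'.2 (Nat.mem_primeFactors.mpr ⟨hpp, h, hN0⟩)
      exact H (f p) (hl p hpp hpN) p q hpp hqp (hf2 p hpp) (hpq ▸ hf2 q hqp) (hf1 p hpp)
        (hpq ▸ hf1 q hqp)
  have h2 := Finset.le_card_sdiff N.primeFactors (Nat.primesLE Y)
  omega

lemma card_two_big (n Y : ℕ) :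
    2 * ((smoothOffsets n Y).filter (fun k => 2 ≤ (big Y (n + k)).card)).card
      ≤ (Nat.primesLE Y).card := by
  set K := (smoothOffsets n Y).filter (fun k => 2 ≤ (big Y (n + k)).card) with hK
  have hlt : ∀ k ∈ K, k < Y := fun k hk =>
    Finset.mem_range.mp (Finset.mem_filter.mp (Finset.mem_filter.mp hk).1).1
  have h1 : (K.biUnion (fun k => big Y (n + k))).card = ∑ k ∈ K, (big Y (n + k)).card :=
    Finset.card_biUnion fun k hk k' hk' hne => big_disjoint n Y k k' (hlt k hk) (hlt k' hk') hne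
  have h2 : K.biUnion (fun k => big Y (n + k)) ⊆ Nat.primesLE Y := by
    intro p hp
    obtain ⟨k, hk, hpk⟩ := Finset.mem_biUnion.mp hp
    have a1 := (Finset.mem_filter.mp hpk).1
    have a2 := (Finset.mem_filter.mp (Finset.mem_filter.mp hk).1).2 p a1
    exact Nat.mem_primesLE.mpr ⟨a2, Nat.prime_of_mem_primeFactors a1⟩
  have h3 : K.card • 2 ≤ ∑ k ∈ K, (big Y (n + k)).card :=
    Finset.card_nsmul_le_sum _ _ _ fun k hk => (Finset.mem_filter.mp hk).2
  have h4 := Finset.card_le_card h2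
  simp only [smul_eq_mul] at h3
  omega

lemma card_large_gcd (n Y T : ℕ) (hn : n ≠ 0) (hY : Y ≠ 0) :
    T ^ ((range Y).filter (fun k => T < Nat.gcd (n + k) (Nat.lcmUpto Y))).card ≤ Y ^ (2 * Y) := by
  refine le_trans ?_ (prod_gcd_le n Y hn hY)
  refine le_trans (Finset.pow_card_le_prod _ (fun k => Nat.gcd (n + k) (Nat.lcmUpto Y)) _
    fun k hk => (Finset.mem_filter.mp hk).2.le) ?_
  refine Finset.prod_le_prod_of_subset_of_one_le' (Finset.filter_subset _ _) fun k _ _ => ?_
  exact Nat.gcd_pos_of_pos_left _ (by omega)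

end Pool.Agent.Lib.MP_8ddb3c_nt
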