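import Mathlib
import Pool.Agent.Lib.MP_8ddb3c_nt.Count

/-!
For every `l` and all large `n` some `n + k` with `k ≥ l` has two prime factors exceeding `k`.
-/

namespace Pool.Agent.Lib.MP_8ddb3c_nt

open Finset

theorem main_at (l s n : ℕ) (hs : 1 ≤ s) (hst : 100000 * (l + 1) * s ^ 2 ≤ 2 ^ s)
    (hn1 : 2 ^ ((2 ^ s) ^ 10) ≤ n) (hn2 : n < 2 ^ (1024 * (2 ^ s) ^ 10))
    (H : ∀ k, l ≤ k → ∀ p q, p.Prime → q.Prime → p ∣ n + k → q ∣ n + k → k < p → k < q → p = q) :
    False := by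
  have hs2 : s ≤ s ^ 2 := by nlinarith
  have hst' : 100 * s ≤ 2 ^ s := by nlinarith
  have np := fun x y a c c' => no_pair s n x y a c c' hs hst' hn1 hn2
  obtain ⟨t, ht⟩ : ∃ t, t = 2 ^ s := ⟨_, rfl⟩
  rw [← ht] at hst hst' hn1 hn2 np
  obtain ⟨Y, hYdef⟩ : ∃ Y, Y = t ^ 14 := ⟨_, rfl⟩
  rw [← hYdef] at np
  have ht100 : 100 ≤ t := by omega
  have hY : Y = 2 ^ (14 * s) := by rw [hYdef, ht, ← pow_mul, mul_comm]
  have hY0 : Y ≠ 0 := by rw [hY]; positivity
  have htlt : t < t ^ 10 := by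
    calc t = t ^ 1 := (pow_one t).symm
      _ < t ^ 10 := Nat.pow_lt_pow_right (by omega) (by norm_num)
  have hTn : 2 ^ t < n := lt_of_lt_of_le (Nat.pow_lt_pow_right (by norm_num) htlt) hn1
  have htn : t < n := lt_trans Nat.lt_two_pow_self hTn
  have hn0 : n ≠ 0 := by omega
  have hYn : Y ≤ n := by
    rw [hY]
    exact le_trans (Nat.pow_le_pow_right (by norm_num) (by omega)) hTn.le
  have hlt : l ≤ t := by nlinarith
  obtain ⟨A, hA⟩ : ∃ A, A = 1024 * t ^ 10 + 1 := ⟨_, rfl⟩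
  have h2n : 2 * n < 2 ^ A := by rw [hA, pow_succ]; omega
  -- the number of primes up to `Y`
  obtain ⟨P, hP⟩ : ∃ P, P = (Nat.primesLE Y).card := ⟨_, rfl⟩
  have hPY : Y ≤ 14 * s * (P + 1) + 1 := by
    have e1 := two_pow_le_primes Y hY0
    rw [← hP] at e1
    have e2 : (Y + 1) * Y ^ P ≤ 2 ^ (14 * s * (P + 1) + 1) := by
      have : Y + 1 ≤ 2 * Y := by omega
      calc (Y + 1) * Y ^ P ≤ 2 * Y * Y ^ P := Nat.mul_le_mul_right _ this
        _ = Y ^ (P + 1) * 2 := by ring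
        _ = _ := by rw [hY, ← pow_mul, pow_succ]
    exact (Nat.pow_le_pow_iff_right (by norm_num : 1 < 2)).mp (e1.trans e2)
  -- the primes dividing the first `l` integers
  obtain ⟨w, hw⟩ : ∃ w, w = (∏ i ∈ range l, (n + i)).primeFactors.card := ⟨_, rfl⟩
  have hwA : w ≤ A * l := by
    have e0 : (∏ i ∈ range l, (n + i)) ≠ 0 := Finset.prod_ne_zero_iff.mpr fun i _ => by omega
    have e1 := two_pow_card_primeFactors_le _ e0
    rw [← hw] at e1
    have e2 : ∏ i ∈ range l, (n + i) ≤ (2 ^ A) ^ (range l).card :=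
      Finset.prod_le_pow_card _ _ _ fun i hi => by
        have := Finset.mem_range.mp hi
        omega
    rw [Finset.card_range, ← pow_mul] at e2
    exact (Nat.pow_le_pow_iff_right (by norm_num : 1 < 2)).mp (e1.trans e2)
  have c1 := card_smoothOffsets l n Y hn0 H
  have c2 := card_two_big n Y
  have c3 := card_large_gcd n Y (2 ^ t) hn0 hY0
  rw [← hP] at c1 c2
  rw [← hw] at c1
  set K := smoothOffsets n Y with hK
  set K2 := K.filter (fun k => 2 ≤ (big Y (n + k)).card) with hK2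
  set B := (range Y).filter (fun k => 2 ^ t < Nat.gcd (n + k) (Nat.lcmUpto Y)) with hB
  set G := K.filter (fun k => (big Y (n + k)).card ≤ 1 ∧
    Nat.gcd (n + k) (Nat.lcmUpto Y) ≤ 2 ^ t) with hG
  have c4 : K.card ≤ G.card + K2.card + B.card := by
    have : K ⊆ G ∪ K2 ∪ B := by
      intro k hk
      have hkY : k ∈ range Y := (Finset.mem_filter.mp hk).1
      simp only [hG, hK2, hB, Finset.mem_union, Finset.mem_filter]
      by_cases a1 : (big Y (n + k)).card ≤ 1
      · by_cases a2 : Nat.gcd (n + k) (Nat.lcmUpto Y) ≤ 2 ^ t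
        · exact Or.inl (Or.inl ⟨hk, a1, a2⟩)
        · exact Or.inr ⟨hkY, by omega⟩
      · exact Or.inl (Or.inr ⟨hk, by omega⟩)
    refine le_trans (Finset.card_le_card this) (le_trans (Finset.card_union_le _ _) ?_)
    exact Nat.add_le_add_right (Finset.card_union_le _ _) _
  have c5 : B.card ≤ 28 * s * t ^ 13 := by
    have e1 : Y ^ (2 * Y) = 2 ^ (14 * s * (2 * Y)) := by rw [pow_mul 2 (14 * s), ← hY]
    rw [e1, ← pow_mul] at c3
    have e2 := (Nat.pow_le_pow_iff_right (by norm_num : 1 < 2)).mp c3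
    have e3 : 14 * s * (2 * Y) = t * (28 * s * t ^ 13) := by rw [hYdef]; ring
    rw [e3] at e2
    exact Nat.le_of_mul_le_mul_left e2 (by omega)
  have c6 : A < G.card := by
    by_contra hle
    have e1 : P ≤ 2 * (A * (l + 1)) + 56 * s * t ^ 13 := by
      have a1 : A * (l + 1) = A * l + A := by ring
      have a2 : 56 * s * t ^ 13 = 2 * (28 * s * t ^ 13) := by ring
      rw [a1, a2]
      generalize 28 * s * t ^ 13 = E at c5 ⊢
      generalize A * l = F at hwA ⊢
      clear c3 hP hw hA a1 a2 hPY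
      omega
    obtain ⟨u, hu⟩ : ∃ u, u = t ^ 13 := ⟨_, rfl⟩
    have e2 : A ≤ 1025 * u := by
      have : t ^ 10 ≤ t ^ 13 := Nat.pow_le_pow_right (by omega) (by norm_num)
      omega
    have e3 : Y = t * u := by rw [hYdef, hu]; ring
    have hu1 : 1 ≤ u := by rw [hu]; exact Nat.one_le_pow _ _ (by omega)
    rw [← hu] at e1
    obtain ⟨L, hL⟩ : ∃ L, L = l + 1 := ⟨_, rfl⟩
    rw [← hL] at e1 hst
    have hL1 : 1 ≤ L := by omega
    obtain ⟨Z, hZ⟩ : ∃ Z, Z = L * s ^ 2 * u := ⟨_, rfl⟩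
    have z1 : s * (A * L) ≤ 1025 * Z := by
      calc s * (A * L) ≤ s ^ 2 * ((1025 * u) * L) := by gcongr
        _ = 1025 * Z := by rw [hZ]; ring
    have z2 : s * (s * u) ≤ Z := by
      calc s * (s * u) = 1 * s ^ 2 * u := by ring
        _ ≤ L * s ^ 2 * u := by gcongr
        _ = Z := hZ.symm
    have z3 : s ≤ Z := by
      calc s ≤ s ^ 2 := hs2
        _ = 1 * s ^ 2 * 1 := by ring
        _ ≤ L * s ^ 2 * u := by gcongr
        _ = Z := hZ.symm
    have z4 : 100000 * Z ≤ Y := by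
      calc 100000 * Z = (100000 * L * s ^ 2) * u := by rw [hZ]; ring
        _ ≤ t * u := Nat.mul_le_mul_right _ hst
        _ = Y := e3.symm
    have z5 : 14 * s * (P + 1) ≤ 28 * (s * (A * L)) + 784 * (s * (s * u)) + 14 * s := by
      calc 14 * s * (P + 1) ≤ 14 * s * (2 * (A * L) + 56 * s * u + 1) := by gcongr
        _ = _ := by ring
    omega
  have hform : ∀ k ∈ G, ∃ x c, x ∈ big Y (n + k) ∧ c ≤ 2 ^ t ∧
      n + k = c * x ^ (n + k).factorization x := fun k hk =>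
    exists_form Y (n + k) (2 ^ t) (by omega) (Finset.mem_filter.mp hk).2.1
      (Finset.mem_filter.mp hk).2.2
  choose! x c hx hc hxc using hform
  have hkY : ∀ k ∈ G, k < Y := fun k hk =>
    Finset.mem_range.mp (Finset.mem_filter.mp (Finset.mem_filter.mp hk).1).1
  have hxp : ∀ k ∈ G, (x k).Prime := fun k hk =>
    Nat.prime_of_mem_primeFactors (Finset.mem_filter.mp (hx k hk)).1
  have hxY : ∀ k ∈ G, x k ≤ Y := fun k hk =>
    (Finset.mem_filter.mp (Finset.mem_filter.mp hk).1).2 _ (Finset.mem_filter.mp (hx k hk)).1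
  have hmaps : ∀ k ∈ G, (n + k).factorization (x k) ∈ range A := by
    intro k hk
    have e1 : 2 ^ (n + k).factorization (x k) ≤ x k ^ (n + k).factorization (x k) :=
      Nat.pow_le_pow_left (hxp k hk).two_le _
    have e2 : x k ^ (n + k).factorization (x k) ≤ n + k := Nat.ordProj_le _ (by omega)
    have e3 := hkY k hk
    have e4 : 2 ^ (n + k).factorization (x k) < 2 ^ A := by omega
    exact Finset.mem_range.mpr ((Nat.pow_lt_pow_iff_right (by norm_num : 1 < 2)).mp e4)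
  obtain ⟨k, hk, k', hk', hne, heq⟩ :=
    Finset.exists_ne_map_eq_of_card_lt_of_maps_to (by simpa using c6) hmaps
  have hxne : x k ≠ x k' := by
    intro h
    have hd := big_disjoint n Y k k' (hkY k hk) (hkY k' hk') hne
    exact Finset.disjoint_left.mp hd (hx k hk) (h ▸ hx k' hk')
  have f1 := hxc k hk
  have f2 := hxc k' hk'
  have f3 := hkY k hk
  have f4 := hkY k' hk'
  rw [← heq] at f2
  rcases lt_or_gt_of_ne hxne with h | h
  · exact np (x k') (x k) ((n + k).factorization (x k)) (c k') (c k) (hxp k hk).two_le h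
      (hxY k' hk') (hc k' hk') (hc k hk) (by omega) (by omega) (by omega) (by omega)
  · exact np (x k) (x k') ((n + k).factorization (x k)) (c k) (c k') (hxp k' hk').two_le h
      (hxY k hk) (hc k hk) (hc k' hk') (by omega) (by omega) (by omega) (by omega)

lemma cube_le_two_pow (s : ℕ) (hs : 10 ≤ s) : s ^ 3 ≤ 2 ^ s := by
  induction s, hs using Nat.le_induction with
  | base => norm_num
  | succ k hk ih =>
    have : (k + 1) ^ 3 ≤ 2 * k ^ 3 := by
      have h1 : 10 * k ^ 2 ≤ k ^ 3 := by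
        calc 10 * k ^ 2 ≤ k * k ^ 2 := Nat.mul_le_mul_right _ hk
          _ = k ^ 3 := by ring
      nlinarith
    rw [pow_succ 2 k]
    omega

/-- For every `l` and all large `n` there are `k ≥ l` and two distinct primes above `k` dividing
`n + k`. -/
theorem exists_two_primes (l : ℕ) : ∃ N, ∀ n, N ≤ n → ∃ k, l ≤ k ∧ ∃ p q, p.Prime ∧ q.Prime ∧
    p ≠ q ∧ p ∣ n + k ∧ q ∣ n + k ∧ k < p ∧ k < q := by
  refine ⟨2 ^ (1024 ^ (100000 * (l + 1))), fun n hn => ?_⟩
  by_contra hcon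
  have hn0 : n ≠ 0 := by
    have : 0 < 2 ^ (1024 ^ (100000 * (l + 1))) := by positivity
    omega
  obtain ⟨e, he⟩ : ∃ e, e = Nat.log 2 n := ⟨_, rfl⟩
  obtain ⟨s, hs⟩ : ∃ s, s = Nat.log 1024 e := ⟨_, rfl⟩
  have he1 : 1024 ^ (100000 * (l + 1)) ≤ e := he ▸ Nat.le_log_of_pow_le (by norm_num) hn
  have hs1 : 100000 * (l + 1) ≤ s := hs ▸ Nat.le_log_of_pow_le (by norm_num) he1
  have he0 : e ≠ 0 := by
    have : 0 < 1024 ^ (100000 * (l + 1)) := by positivity
    omega
  have hpow : (2 ^ s) ^ 10 = 1024 ^ s := by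
    rw [← pow_mul, mul_comm, pow_mul]; norm_num
  refine main_at l s n (by omega) ?_ ?_ ?_ ?_
  · calc 100000 * (l + 1) * s ^ 2 ≤ s * s ^ 2 := Nat.mul_le_mul_right _ hs1
      _ = s ^ 3 := by ring
      _ ≤ 2 ^ s := cube_le_two_pow s (by omega)
  · rw [hpow]
    have e1 : 1024 ^ s ≤ e := hs ▸ Nat.pow_log_le_self 1024 he0
    have e2 : 2 ^ e ≤ n := he ▸ Nat.pow_log_le_self 2 hn0
    exact le_trans (Nat.pow_le_pow_right (by norm_num) e1) e2
  · rw [hpow]
    have e1 : e < 1024 ^ (s + 1) := hs ▸ Nat.lt_pow_succ_log_self (by norm_num) e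
    have e2 : n < 2 ^ (e + 1) := he ▸ Nat.lt_pow_succ_log_self (by norm_num) n
    refine lt_of_lt_of_le e2 (Nat.pow_le_pow_right (by norm_num) ?_)
    rw [pow_succ] at e1
    omega
  · intro k hk p q hp hq h1 h2 h3 h4
    by_contra hne
    exact hcon ⟨k, hk, p, q, hp, hq, hne, h1, h2, h3, h4⟩

end Pool.Agent.Lib.MP_8ddb3c_nt
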